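import Pool.Agent.Q187.HL.Step

/-! Hodge index: adding one curve. -/

namespace Pool.Agent.Q187.HL

universe u

variable {A : Type u} [AddCommGroup A] [Module ℚ A]

/-- a symmetric rational bilinear form for which `L, l, r` are self-adjoint -/
structure IsForm (φ : A → A → ℝ) (L l r : Module.End ℚ A) : Prop where
  add : ∀ x y z, φ (x + y) z = φ x z + φ y z
  smul : ∀ (t : ℚ) x y, φ (t • x) y = t * φ x y
  symm : ∀ x y, φ x y = φ y x
  Ladj : ∀ x y, φ (L x) y = φ x (L y)
  ladj : ∀ x y, φ (l x) y = φ x (l y)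
  radj : ∀ x y, φ (r x) y = φ x (r y)

variable {V : ℤ → Submodule ℚ A} {W : Submodule ℚ A} {L l r : Module.End ℚ A} {φ : A → A → ℝ}

theorem IsForm.zero_left (f : IsForm φ L l r) (y : A) : φ 0 y = 0 := by
  have := f.smul 0 0 y
  rwa [zero_smul, Rat.cast_zero, zero_mul] at this

theorem IsForm.zero_right (f : IsForm φ L l r) (x : A) : φ x 0 = 0 := by
  rw [f.symm, f.zero_left]

theorem IsForm.add_right (f : IsForm φ L l r) (x y z : A) : φ x (y + z) = φ x y + φ x z := by
  rw [f.symm, f.add, f.symm y, f.symm z]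

theorem IsForm.smul_right (f : IsForm φ L l r) (t : ℚ) (x y : A) :
    φ x (t • y) = t * φ x y := by
  rw [f.symm, f.smul, f.symm y]

theorem IsForm.pow_adj (f : IsForm φ L l r) (m : ℕ) (x y : A) :
    φ ((L ^ m) x) y = φ x ((L ^ m) y) := by
  induction m generalizing x y with
  | zero => simp
  | succ m ih =>
    rw [← L_pow, f.Ladj, ih, pow_succ, Module.End.mul_apply]

theorem neg_one_zpow_pred (i : ℤ) : (-1 : ℝ) ^ (i - 1) = - (-1 : ℝ) ^ i := by
  rw [zpow_sub_one₀ (by norm_num)]
  norm_num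

/-- **Hodge index step.** -/
theorem index_step (h : IsStep V W L l r) (f : IsForm φ L l r) (c : ℤ) :
    Index V W (L + l) c φ ↔
      Index V (base W l r) L (c - 1) (fun x y => φ x (l y)) ∧ Index V (prim W l r) L c φ := by
  constructor
  · intro H
    refine ⟨?_, ?_⟩
    · intro i m him x hx hxV hx0 h0
      have h1 := H i (m + 1) (by push_cast; omega) x hx.1 hxV hx0 (by
        rw [pow_add_succ h, ← L_pow, h0, map_zero, map_zero, smul_zero, add_zero])
      rw [pow_add_succ h, h0, zero_add, f.smul_right] at h1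
      have h2 : (0 : ℝ) < (((m : ℚ) + 1 : ℚ) : ℝ) := by positivity
      have h3 : 0 < (((m : ℚ) + 1 : ℚ) : ℝ) * ((-1 : ℝ) ^ i * φ x (l ((L ^ m) x))) := by
        calc (0 : ℝ) < _ := h1
          _ = _ := by ring
      exact (pos_iff_pos_of_mul_pos h3).1 h2
    · intro i m him x hx hxV hx0 h0
      have h1 := H i m him x hx.1 hxV hx0 (by rw [pow_prim h _ hx.2.1, h0])
      rwa [pow_prim h _ hx.2.1] at h1
  · rintro ⟨HB, HP⟩ i m him x hx hxV hx0 h0
    -- the components
    obtain ⟨w, hw⟩ : ∃ w, w = x - r (l x) - l (r x) := ⟨_, rfl⟩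
    obtain ⟨b0, hb0⟩ : ∃ b, b = r (l x) := ⟨_, rfl⟩
    obtain ⟨b1, hb1⟩ : ∃ b, b = r x := ⟨_, rfl⟩
    have hxw : x = w + (b0 + l b1) := by rw [hw, hb0, hb1]; abel
    have wm : w ∈ prim W l r := by rw [hw]; exact prim_proj h hx
    have wV : w ∈ V i := by rw [hw]; exact prim_proj_V h hxV
    have b0m : b0 ∈ base W l r := by rw [hb0]; exact base_rl h hx
    have b0V : b0 ∈ V i := by rw [hb0]; exact rl_V h hxV
    have b1m : b1 ∈ base W l r := by rw [hb1]; exact base_r h hx
    have b1V : b1 ∈ V (i - 1) := by rw [hb1]; exact h.rV _ _ hxV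
    have hw0 : (L ^ (m + 1)) w = 0 := by
      rw [← pow_prim h _ wm.2.1, hw, pow_prim_proj h, h0]
      simp
    have e0 : (L ^ (m + 1)) b0 = 0 := by
      have : r (l (((L + l) ^ (m + 1)) x)) = r (l 0) := by rw [h0]
      rw [pow_add_succ h, map_add, map_smul, h.ll, smul_zero, add_zero, ← pow_l h, ← pow_r h,
        map_zero, map_zero, ← hb0] at this
      exact this
    have e1 : (L ^ (m + 1)) b1 + ((m : ℚ) + 1) • (L ^ m) b0 = 0 := by
      have := congrArg r h0
      rw [pow_add_succ h, map_add, map_smul, ← pow_l h, ← pow_r h, ← pow_r h, map_zero, ← hb0,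
        ← hb1] at this
      exact this
    have e2 : (L ^ (m + 2)) b1 = 0 := by
      have := congrArg L e1
      rw [map_add, map_smul, L_pow, L_pow, e0, smul_zero, add_zero, map_zero] at this
      exact this
    -- orthogonality
    have o1 : ∀ y z, y ∈ base W l r → z ∈ base W l r → φ y z = 0 := by
      intro y z hy hz
      rw [← hy.2, ← hz.2, f.radj, h.rr, f.zero_right]
    have o2 : ∀ y z, φ (l y) (l z) = 0 := by
      intro y z
      rw [f.ladj, h.ll, f.zero_right]
    have o3 : ∀ y z, y ∈ prim W l r → z ∈ base W l r → φ y z = 0 := by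
      intro y z hy hz
      rw [← hz.2, ← f.radj, hy.2.2, f.zero_left]
    have o4 : ∀ y z, y ∈ prim W l r → φ y (l z) = 0 := by
      intro y z hy
      rw [← f.ladj, hy.2.1, f.zero_left]
    have hbs : ∀ (m : ℕ) (x : A), x ∈ base W l r → (L ^ m) x ∈ base W l r := by
      intro m x hx
      refine ⟨pow_W h m hx.1, ?_⟩
      rw [← pow_l h, ← pow_r h, hx.2]
    have hps : ∀ (m : ℕ) (x : A), x ∈ prim W l r → (L ^ m) x ∈ prim W l r := by
      intro m x hx
      refine ⟨pow_W h m hx.1, ?_, ?_⟩
      · rw [← pow_l h, hx.2.1, map_zero]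
      · rw [← pow_r h, hx.2.2, map_zero]
    have hm1 : (0 : ℝ) < (m : ℝ) + 1 := by positivity
    -- the two primitive parts
    have hr : b1 ≠ 0 → 0 < -((-1 : ℝ) ^ i * φ b1 (l ((L ^ (m + 1)) b1))) := by
      intro hb
      have := HB (i - 1) (m + 1) (by push_cast; omega) b1 b1m b1V hb e2
      rw [neg_one_zpow_pred] at this
      linarith
    have hww : w ≠ 0 → 0 < (-1 : ℝ) ^ i * φ w ((L ^ m) w) := fun hw' =>
      HP i m him w wm wV hw' hw0
    -- `L^m` of the sum
    rcases Nat.eq_zero_or_pos m with rfl | hm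
    · have hb : b0 = - L b1 := by
        have : L b1 + b0 = 0 := by simpa using e1
        rw [eq_neg_iff_add_eq_zero, add_comm]; exact this
      have key : φ x x = φ w w - 2 * φ b1 (l (L b1)) := by
        have k1 : φ b0 (l b1) = - φ b1 (l (L b1)) := by
          have : b0 = (-1 : ℚ) • L b1 := by rw [hb]; simp
          rw [this, f.smul, f.Ladj, h.Ll]
          push_cast
          ring
        have k2 : φ (l b1) b0 = - φ b1 (l (L b1)) := by rw [f.symm, k1]
        conv_lhs => rw [hxw]
        rw [f.add, f.add, f.add_right, f.add_right, f.add_right, f.add_right, f.add_right,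
          f.add_right, o3 _ _ wm b0m, o4 _ _ wm, o1 _ _ b0m b0m, o2, f.symm b0 w, o3 _ _ wm b0m,
          f.symm (l b1) w, o4 _ _ wm, k1, k2]
        ring
      simp only [pow_zero, Module.End.one_apply]
      rw [key]
      simp only [zero_add, pow_one] at hr
      simp only [pow_zero, Module.End.one_apply] at hww
      by_cases hb1z : b1 = 0
      · have : w ≠ 0 := by
          intro hw'
          apply hx0
          rw [hxw, hw', hb, hb1z]
          simp
        have := hww this
        rw [hb1z, map_zero, map_zero, f.zero_right]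
        linarith
      · have h1 := hr hb1z
        by_cases hwz : w = 0
        · rw [hwz, f.zero_left]
          linarith
        · have := hww hwz
          linarith
    · obtain ⟨k, rfl⟩ : ∃ k, m = k + 1 := ⟨m - 1, by omega⟩
      obtain ⟨t, ht⟩ : ∃ t : ℚ, t = (((k + 1 : ℕ) : ℚ) + 1)⁻¹ := ⟨_, rfl⟩
      have hk : (((k + 1 : ℕ) : ℚ) + 1) ≠ 0 := by positivity
      have htR : (t : ℝ) = ((k : ℝ) + 2)⁻¹ := by
        rw [ht]
        push_cast
        ring
      obtain ⟨p, hp⟩ : ∃ p, p = b0 + t • L b1 := ⟨_, rfl⟩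
      have pm : p ∈ base W l r := by
        rw [hp]
        exact add_mem b0m (Submodule.smul_mem _ _ (base_stable h b1m))
      have pV : p ∈ V i := by
        rw [hp]
        refine add_mem b0V (Submodule.smul_mem _ _ ?_)
        have := h.LV _ _ b1V
        rwa [sub_add_cancel] at this
      have hb0p : b0 = p + (-t) • L b1 := by rw [hp, neg_smul]; abel
      have p0 : (L ^ (k + 1)) p = 0 := by
        have : (((k + 1 : ℕ) : ℚ) + 1) • (L ^ (k + 1)) p = 0 := by
          rw [hp, map_add, smul_add, map_smul, smul_smul, ht, mul_inv_cancel₀ hk, one_smul,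
            ← Module.End.mul_apply, ← pow_succ, add_comm]
          exact e1
        exact (smul_eq_zero.1 this).resolve_left hk
      have hpp : p ≠ 0 → 0 < (-1 : ℝ) ^ i * φ p (l ((L ^ k) p)) := fun hp' =>
        HB i k (by push_cast at him; omega) p pm pV hp' p0
      -- the form on the pulled back part
      have ψs : ∀ y z, φ y (l z) = φ z (l y) := fun y z => by rw [← f.ladj, f.symm]
      have ψL : ∀ y z, φ (L y) (l z) = φ y (l (L z)) := fun y z => by rw [f.Ladj, h.Ll]
      have ψLp : ∀ n y z, φ ((L ^ n) y) (l z) = φ y (l ((L ^ n) z)) := fun n y z => by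
        rw [f.pow_adj, pow_l h]
      have kL : (L ^ k) (L b1) = (L ^ (k + 1)) b1 := by rw [pow_succ, Module.End.mul_apply]
      have q1 : φ p (l ((L ^ (k + 1)) b1)) = 0 := by rw [← ψLp, p0, f.zero_left]
      have q2 : φ (L b1) (l ((L ^ k) p)) = 0 := by rw [ψs, ψLp, kL, q1]
      have q3 : φ (L b1) (l ((L ^ (k + 1)) b1)) = φ b1 (l ((L ^ (k + 1 + 1)) b1)) := by
        rw [ψL, L_pow]
      have E1 : φ b0 (l ((L ^ k) b0)) =
          φ p (l ((L ^ k) p)) + (t : ℝ) ^ 2 * φ b1 (l ((L ^ (k + 1 + 1)) b1)) := by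
        rw [hb0p, map_add, map_add, f.add, f.add_right, f.add_right, map_smul, map_smul,
          f.smul_right, f.smul, f.smul, f.smul_right, kL, q1, q2, q3]
        push_cast
        ring
      have E2 : φ b0 (l ((L ^ (k + 1)) b1)) = -(t : ℝ) * φ b1 (l ((L ^ (k + 1 + 1)) b1)) := by
        rw [hb0p, f.add, f.smul, q1, q3]
        push_cast
        ring
      have E3 : φ (l b1) ((L ^ (k + 1)) b0) = -(t : ℝ) * φ b1 (l ((L ^ (k + 1 + 1)) b1)) := by
        rw [f.ladj, ← ψLp, ψs, E2]
      have s1 : ((L + l) ^ (k + 1)) x = (L ^ (k + 1)) w + ((L ^ (k + 1)) b0 +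
          (l ((L ^ (k + 1)) b1) + ((k : ℚ) + 1) • l ((L ^ k) b0))) := by
        rw [pow_add_succ h, hxw, map_add, map_add, map_add, map_add, map_add, map_add,
          pow_l h, ← pow_l h k w, wm.2.1, map_zero, pow_l h k b1, h.ll, zero_add, add_zero]
        abel
      have key : φ x (((L + l) ^ (k + 1)) x) = φ w ((L ^ (k + 1)) w) +
          ((k : ℝ) + 1) * φ p (l ((L ^ k) p)) +
          ((k : ℝ) + 3) / ((k : ℝ) + 2) ^ 2 * (- φ b1 (l ((L ^ (k + 1 + 1)) b1))) := by
        have g1 : φ w ((L ^ (k + 1)) b0) = 0 := o3 _ _ wm (hbs _ _ b0m)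
        have g2 : φ w (l ((L ^ (k + 1)) b1)) = 0 := o4 _ _ wm
        have g3 : φ w (l ((L ^ k) b0)) = 0 := o4 _ _ wm
        have g4 : φ b0 ((L ^ (k + 1)) w) = 0 := by rw [f.symm, o3 _ _ (hps _ _ wm) b0m]
        have g5 : φ (l b1) ((L ^ (k + 1)) w) = 0 := by rw [f.symm, o4 _ _ (hps _ _ wm)]
        have g6 : φ b0 ((L ^ (k + 1)) b0) = 0 := o1 _ _ b0m (hbs _ _ b0m)
        rw [s1]
        conv_lhs => rw [hxw]
        rw [f.add, f.add]
        simp only [f.add_right, f.smul_right]
        rw [g1, g2, g3, g4, g5, g6, o2, o2, E1, E2, E3, htR]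
        push_cast
        field_simp
        ring
      have Aw : 0 ≤ (-1 : ℝ) ^ i * φ w ((L ^ (k + 1)) w) := by
        by_cases hz : w = 0
        · rw [hz, f.zero_left, mul_zero]
        · exact (hww hz).le
      have Ap : 0 ≤ (-1 : ℝ) ^ i * φ p (l ((L ^ k) p)) := by
        by_cases hz : p = 0
        · rw [hz, f.zero_left, mul_zero]
        · exact (hpp hz).le
      have Ab : 0 ≤ -((-1 : ℝ) ^ i * φ b1 (l ((L ^ (k + 1 + 1)) b1))) := by
        by_cases hz : b1 = 0
        · rw [hz, f.zero_left, mul_zero, neg_zero]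
        · exact (hr hz).le
      have c1 : (0 : ℝ) < (k : ℝ) + 1 := by positivity
      have c2 : (0 : ℝ) < ((k : ℝ) + 3) / ((k : ℝ) + 2) ^ 2 := by positivity
      have tot : (-1 : ℝ) ^ i * φ x (((L + l) ^ (k + 1)) x) =
          (-1 : ℝ) ^ i * φ w ((L ^ (k + 1)) w) +
          ((k : ℝ) + 1) * ((-1 : ℝ) ^ i * φ p (l ((L ^ k) p))) +
          ((k : ℝ) + 3) / ((k : ℝ) + 2) ^ 2 *
            (-((-1 : ℝ) ^ i * φ b1 (l ((L ^ (k + 1 + 1)) b1)))) := by
        rw [key]
        ring
      rw [tot]
      have Bp := mul_nonneg c1.le Ap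
      have Bb := mul_nonneg c2.le Ab
      by_cases hwz : w = 0
      · by_cases hbz : b1 = 0
        · have hpz : p ≠ 0 := by
            intro hpz
            apply hx0
            have hb : b0 = 0 := by rw [hb0p, hpz, hbz]; simp
            rw [hxw, hwz, hb, hbz]
            simp
          have := mul_pos c1 (hpp hpz)
          linarith
        · have := mul_pos c2 (hr hbz)
          linarith
      · have := hww hwz
        linarith

end Pool.Agent.Q187.HL
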