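import Pool.Agent.Q187.HL.Index

/-! Hard Lefschetz and Hodge index: adding several curves. -/

namespace Pool.Agent.Q187.HL

universe u v

variable {A : Type u} [AddCommGroup A] [Module ℚ A]
variable {ι : Type v} [DecidableEq ι]

/-- the operators of several curves -/
structure Ops (V : ℤ → Submodule ℚ A) (L : Module.End ℚ A) (l r : ι → Module.End ℚ A) :
    Prop where
  LV : ∀ i, ∀ x ∈ V i, L x ∈ V (i + 1)
  lV : ∀ k i, ∀ x ∈ V i, l k x ∈ V (i + 1)
  rV : ∀ k i, ∀ x ∈ V i, r k x ∈ V (i - 1)
  ll : ∀ k x, l k (l k x) = 0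
  rr : ∀ k x, r k (r k x) = 0
  lrl : ∀ k x, l k (r k (l k x)) = l k x
  rlr : ∀ k x, r k (l k (r k x)) = r k x
  Ll : ∀ k x, L (l k x) = l k (L x)
  Lr : ∀ k x, L (r k x) = r k (L x)
  cll : ∀ j k, j ≠ k → ∀ x, l j (l k x) = l k (l j x)
  crr : ∀ j k, j ≠ k → ∀ x, r j (r k x) = r k (r j x)
  clr : ∀ j k, j ≠ k → ∀ x, l j (r k x) = r k (l j x)

/-- stability of `W` -/
structure St (W : Submodule ℚ A) (L : Module.End ℚ A) (l r : ι → Module.End ℚ A)
    (s : List ι) : Prop where
  LW : ∀ x ∈ W, L x ∈ W
  lW : ∀ k ∈ s, ∀ x ∈ W, l k x ∈ W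
  rW : ∀ k ∈ s, ∀ x ∈ W, r k x ∈ W

/-- the part of `W` of type `S` -/
def Pc (W : Submodule ℚ A) (l r : ι → Module.End ℚ A) (s : List ι) (S : Finset ι) :
    Submodule ℚ A where
  carrier := {x | x ∈ W ∧ ∀ k ∈ s, (k ∈ S → l k x = 0 ∧ r k x = 0) ∧ (k ∉ S → r k (l k x) = x)}
  zero_mem' := ⟨zero_mem _, fun k _ => ⟨fun _ => by simp, fun _ => by simp⟩⟩
  add_mem' := by
    rintro x y ⟨hx, hx'⟩ ⟨hy, hy'⟩
    refine ⟨add_mem hx hy, fun k hk => ⟨fun h => ?_, fun h => ?_⟩⟩
    · rw [map_add, map_add, ((hx' k hk).1 h).1, ((hx' k hk).1 h).2, ((hy' k hk).1 h).1,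
        ((hy' k hk).1 h).2]
      simp
    · rw [map_add, map_add, (hx' k hk).2 h, (hy' k hk).2 h]
  smul_mem' := by
    rintro t x ⟨hx, hx'⟩
    refine ⟨Submodule.smul_mem _ _ hx, fun k hk => ⟨fun h => ?_, fun h => ?_⟩⟩
    · rw [map_smul, map_smul, ((hx' k hk).1 h).1, ((hx' k hk).1 h).2]
      simp
    · rw [map_smul, map_smul, (hx' k hk).2 h]

/-- the product of the operators `l k`, `k ∉ S` -/
def cmp (l : ι → Module.End ℚ A) (s : List ι) (S : Finset ι) : Module.End ℚ A :=
  ((s.filter (fun k => k ∉ S)).map l).prod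

theorem mem_Pc {W : Submodule ℚ A} {l r : ι → Module.End ℚ A} {s : List ι} {S : Finset ι}
    {x : A} : x ∈ Pc W l r s S ↔
      x ∈ W ∧ ∀ k ∈ s, (k ∈ S → l k x = 0 ∧ r k x = 0) ∧ (k ∉ S → r k (l k x) = x) := Iff.rfl

theorem Pc_base {W : Submodule ℚ A} {l r : ι → Module.End ℚ A} {k : ι} {t : List ι}
    {S : Finset ι} (hS : k ∉ S) : Pc (base W (l k) (r k)) l r t S = Pc W l r (k :: t) S := by
  ext x
  rw [mem_Pc, mem_Pc, mem_base]
  constructor
  · rintro ⟨⟨h1, h2⟩, h3⟩
    refine ⟨h1, fun j hj => ?_⟩
    rcases List.mem_cons.1 hj with rfl | hj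
    · exact ⟨fun h => absurd h hS, fun _ => h2⟩
    · exact h3 j hj
  · rintro ⟨h1, h2⟩
    exact ⟨⟨h1, (h2 k List.mem_cons_self).2 hS⟩, fun j hj => h2 j (List.mem_cons_of_mem _ hj)⟩

theorem Pc_prim {W : Submodule ℚ A} {l r : ι → Module.End ℚ A} {k : ι} {t : List ι}
    {S S' : Finset ι} (hS : k ∈ S') (hSS : ∀ j ∈ t, j ∈ S ↔ j ∈ S') :
    Pc (prim W (l k) (r k)) l r t S = Pc W l r (k :: t) S' := by
  ext x
  rw [mem_Pc, mem_Pc, mem_prim]
  constructor
  · rintro ⟨⟨h1, h2⟩, h3⟩
    refine ⟨h1, fun j hj => ?_⟩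
    rcases List.mem_cons.1 hj with rfl | hj
    · exact ⟨fun _ => h2, fun h => absurd hS h⟩
    · rw [← hSS j hj]
      exact h3 j hj
  · rintro ⟨h1, h2⟩
    refine ⟨⟨h1, (h2 k List.mem_cons_self).1 hS⟩, fun j hj => ?_⟩
    rw [hSS j hj]
    exact h2 j (List.mem_cons_of_mem _ hj)

variable {V : ℤ → Submodule ℚ A} {L : Module.End ℚ A} {l r : ι → Module.End ℚ A}

section
variable (o : Ops V L l r)
include o

theorem sum_V (t : List ι) (i : ℤ) {x : A} (hx : x ∈ V i) : (t.map l).sum x ∈ V (i + 1) := by
  induction t with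
  | nil => simp
  | cons j t ih =>
    rw [List.map_cons, List.sum_cons, LinearMap.add_apply]
    exact add_mem (o.lV _ _ _ hx) ih

theorem sum_l {k : ι} {t : List ι} (hk : k ∉ t) (x : A) :
    (t.map l).sum (l k x) = l k ((t.map l).sum x) := by
  induction t with
  | nil => simp
  | cons j t ih =>
    rw [List.mem_cons, not_or] at hk
    rw [List.map_cons, List.sum_cons, LinearMap.add_apply, LinearMap.add_apply, map_add,
      ih hk.2, o.cll _ _ (Ne.symm hk.1)]

theorem sum_r {k : ι} {t : List ι} (hk : k ∉ t) (x : A) :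
    (t.map l).sum (r k x) = r k ((t.map l).sum x) := by
  induction t with
  | nil => simp
  | cons j t ih =>
    rw [List.mem_cons, not_or] at hk
    rw [List.map_cons, List.sum_cons, LinearMap.add_apply, LinearMap.add_apply, map_add,
      ih hk.2, o.clr _ _ (Ne.symm hk.1)]

omit o in
theorem sum_W {W : Submodule ℚ A} {t : List ι} (h : ∀ k ∈ t, ∀ x ∈ W, l k x ∈ W) {x : A}
    (hx : x ∈ W) : (t.map l).sum x ∈ W := by
  induction t with
  | nil => simp
  | cons j t ih =>
    rw [List.map_cons, List.sum_cons, LinearMap.add_apply]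
    exact add_mem (h j List.mem_cons_self _ hx) (ih fun k hk => h k (List.mem_cons_of_mem _ hk))

theorem isStep {k : ι} {t : List ι} (hk : k ∉ t) {W : Submodule ℚ A}
    (h : St W L l r (k :: t)) : IsStep V W (L + (t.map l).sum) (l k) (r k) where
  LW x hx := add_mem (h.LW x hx) (sum_W (fun j hj => h.lW j (List.mem_cons_of_mem _ hj)) hx)
  lW := h.lW k List.mem_cons_self
  rW := h.rW k List.mem_cons_self
  LV i x hx := add_mem (o.LV i x hx) (sum_V o t i hx)
  lV := o.lV k
  rV := o.rV k
  ll := o.ll k
  rr := o.rr k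
  lrl := o.lrl k
  rlr := o.rlr k
  Ll x := by rw [LinearMap.add_apply, LinearMap.add_apply, map_add, o.Ll, sum_l o hk]
  Lr x := by rw [LinearMap.add_apply, LinearMap.add_apply, map_add, o.Lr, sum_r o hk]

theorem st_base {k : ι} {t : List ι} (hk : k ∉ t) {W : Submodule ℚ A}
    (h : St W L l r (k :: t)) : St (base W (l k) (r k)) L l r t where
  LW x hx := ⟨h.LW x hx.1, by rw [← o.Ll, ← o.Lr, hx.2]⟩
  lW j hj x hx := by
    have hjk : j ≠ k := fun e => hk (e ▸ hj)
    refine ⟨h.lW j (List.mem_cons_of_mem _ hj) x hx.1, ?_⟩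
    rw [o.cll _ _ (Ne.symm hjk), ← o.clr _ _ hjk, hx.2]
  rW j hj x hx := by
    have hjk : j ≠ k := fun e => hk (e ▸ hj)
    refine ⟨h.rW j (List.mem_cons_of_mem _ hj) x hx.1, ?_⟩
    rw [o.clr _ _ (Ne.symm hjk), o.crr _ _ (Ne.symm hjk), hx.2]

theorem st_prim {k : ι} {t : List ι} (hk : k ∉ t) {W : Submodule ℚ A}
    (h : St W L l r (k :: t)) : St (prim W (l k) (r k)) L l r t where
  LW x hx := ⟨h.LW x hx.1, by rw [← o.Ll, hx.2.1, map_zero], by rw [← o.Lr, hx.2.2, map_zero]⟩
  lW j hj x hx := by
    have hjk : j ≠ k := fun e => hk (e ▸ hj)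
    refine ⟨h.lW j (List.mem_cons_of_mem _ hj) x hx.1, ?_, ?_⟩
    · rw [o.cll _ _ (Ne.symm hjk), hx.2.1, map_zero]
    · rw [← o.clr _ _ hjk, hx.2.2, map_zero]
  rW j hj x hx := by
    have hjk : j ≠ k := fun e => hk (e ▸ hj)
    refine ⟨h.rW j (List.mem_cons_of_mem _ hj) x hx.1, ?_, ?_⟩
    · rw [o.clr _ _ (Ne.symm hjk), hx.2.1, map_zero]
    · rw [o.crr _ _ (Ne.symm hjk), hx.2.2, map_zero]

/-- **Hard Lefschetz for several curves.** -/
theorem hard_list : ∀ (s : List ι), s.Nodup → ∀ (W : Submodule ℚ A) (c : ℤ), St W L l r s →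
    (Hard V W (L + (s.map l).sum) c ↔ ∀ S : Finset ι, (∀ k ∈ S, k ∈ s) →
      Hard V (Pc W l r s S) L (c - (s.length - S.card))) := by
  intro s
  induction s with
  | nil =>
    intro _ W c _
    have hP : ∀ S, Pc W l r [] S = W := by
      intro S
      ext x
      rw [mem_Pc]
      simp
    constructor
    · intro H S hS
      have : S = ∅ := Finset.eq_empty_of_forall_notMem fun k hk => by simpa using hS k hk
      subst this
      rw [hP]
      simpa using H
    · intro H
      have := H ∅ (by simp)
      rw [hP] at this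
      simpa using this
  | cons k t ih =>
    intro hn W c h
    obtain ⟨hk, hn⟩ := List.nodup_cons.1 hn
    have e : L + ((k :: t).map l).sum = (L + (t.map l).sum) + l k := by
      rw [List.map_cons, List.sum_cons]
      abel
    rw [e, hard_step (isStep o hk h), ih hn _ _ (st_base o hk h), ih hn _ _ (st_prim o hk h)]
    constructor
    · rintro ⟨HB, HP⟩ S hS
      by_cases hkS : k ∈ S
      · have h1 := HP (S.erase k) (by
          intro j hj
          obtain ⟨hj1, hj2⟩ := Finset.mem_erase.1 hj
          exact (List.mem_cons.1 (hS j hj2)).resolve_left hj1)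
        rw [Pc_prim (S' := S) hkS (by
          intro j hj
          have hjk : j ≠ k := fun e => hk (e ▸ hj)
          simp [hjk])] at h1
        have hc : (S.erase k).card + 1 = S.card := Finset.card_erase_add_one hkS
        rw [← hc]
        push_cast at h1 ⊢
        rw [List.length_cons]
        push_cast
        rw [show c - ((t.length : ℤ) + 1 - ((S.erase k).card + 1)) =
          c - (t.length - (S.erase k).card) by ring]
        exact h1
      · have h1 := HB S (by
          intro j hj
          have hjk : j ≠ k := fun e => hkS (e ▸ hj)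
          exact (List.mem_cons.1 (hS j hj)).resolve_left hjk)
        rw [Pc_base hkS] at h1
        rw [List.length_cons]
        push_cast
        rw [show c - ((t.length : ℤ) + 1 - S.card) = c - 1 - (t.length - S.card) by ring]
        exact h1
    · intro H
      refine ⟨fun S hS => ?_, fun S hS => ?_⟩
      · have hkS : k ∉ S := fun hkS => hk (hS k hkS)
        have h1 := H S fun j hj => List.mem_cons_of_mem _ (hS j hj)
        rw [Pc_base hkS]
        rw [List.length_cons] at h1
        push_cast at h1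
        rw [show c - ((t.length : ℤ) + 1 - S.card) = c - 1 - (t.length - S.card) by ring] at h1
        exact h1
      · have hkS : k ∉ S := fun hkS => hk (hS k hkS)
        have h1 := H (insert k S) (by
          intro j hj
          rcases Finset.mem_insert.1 hj with rfl | hj
          · exact List.mem_cons_self
          · exact List.mem_cons_of_mem _ (hS j hj))
        rw [Pc_prim (S' := insert k S) (Finset.mem_insert_self _ _) (by
          intro j hj
          have hjk : j ≠ k := fun e => hk (e ▸ hj)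
          simp [hjk])]
        rw [List.length_cons, Finset.card_insert_of_notMem hkS] at h1
        push_cast at h1
        rw [show c - ((t.length : ℤ) + 1 - (S.card + 1)) = c - (t.length - S.card) by ring] at h1
        exact h1

theorem isForm_sum {φ : A → A → ℝ} {k : ι} {t : List ι}
    (f : ∀ j ∈ k :: t, IsForm φ L (l j) (r j)) :
    IsForm φ (L + (t.map l).sum) (l k) (r k) := by
  have fk := f k List.mem_cons_self
  refine ⟨fk.add, fk.smul, fk.symm, ?_, fk.ladj, fk.radj⟩
  have hs : ∀ t' : List ι, (∀ j ∈ t', IsForm φ L (l j) (r j)) → ∀ x y,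
      φ ((t'.map l).sum x) y = φ x ((t'.map l).sum y) := by
    intro t'
    induction t' with
    | nil => intro _ x y; simp [fk.zero_left, fk.zero_right]
    | cons j t' ih =>
      intro hj x y
      rw [List.map_cons, List.sum_cons, LinearMap.add_apply, LinearMap.add_apply, fk.add,
        fk.add_right, (hj j List.mem_cons_self).ladj,
        ih fun i hi => hj i (List.mem_cons_of_mem _ hi)]
  intro x y
  rw [LinearMap.add_apply, LinearMap.add_apply, fk.add, fk.add_right, fk.Ladj,
    hs t fun j hj => f j (List.mem_cons_of_mem _ hj)]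

theorem isForm_base {φ : A → A → ℝ} {k : ι} {t : List ι} (hk : k ∉ t)
    (f : ∀ j ∈ k :: t, IsForm φ L (l j) (r j)) :
    ∀ j ∈ t, IsForm (fun x y => φ x (l k y)) L (l j) (r j) := by
  have fk := f k List.mem_cons_self
  intro j hj
  have fj := f j (List.mem_cons_of_mem _ hj)
  have hjk : j ≠ k := fun e => hk (e ▸ hj)
  refine ⟨fun x y z => fk.add _ _ _, fun t x y => fk.smul _ _ _, fun x y => ?_, fun x y => ?_,
    fun x y => ?_, fun x y => ?_⟩
  · change φ x (l k y) = φ y (l k x)
    rw [← fk.ladj, fk.symm]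
  · change φ (L x) (l k y) = φ x (l k (L y))
    rw [fk.Ladj, o.Ll]
  · change φ (l j x) (l k y) = φ x (l k (l j y))
    rw [fj.ladj, o.cll _ _ hjk]
  · change φ (r j x) (l k y) = φ x (l k (r j y))
    rw [fj.radj, o.clr _ _ (Ne.symm hjk)]

/-- **Hodge index for several curves.** -/
theorem index_list : ∀ (s : List ι), s.Nodup → ∀ (W : Submodule ℚ A) (c : ℤ) (φ : A → A → ℝ),
    St W L l r s → (∀ k ∈ s, IsForm φ L (l k) (r k)) →
    (Index V W (L + (s.map l).sum) c φ ↔ ∀ S : Finset ι, (∀ k ∈ S, k ∈ s) →
      Index V (Pc W l r s S) L (c - (s.length - S.card)) (fun x y => φ x (cmp l s S y))) := by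
  intro s
  induction s with
  | nil =>
    intro _ W c φ _ _
    have hP : ∀ S, Pc W l r [] S = W := by
      intro S
      ext x
      rw [mem_Pc]
      simp
    constructor
    · intro H S hS
      have : S = ∅ := Finset.eq_empty_of_forall_notMem fun k hk => by simpa using hS k hk
      subst this
      rw [hP]
      simpa [cmp] using H
    · intro H
      have := H ∅ (by simp)
      rw [hP] at this
      simpa [cmp] using this
  | cons k t ih =>
    intro hn W c φ h f
    obtain ⟨hk, hn⟩ := List.nodup_cons.1 hn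
    have e : L + ((k :: t).map l).sum = (L + (t.map l).sum) + l k := by
      rw [List.map_cons, List.sum_cons]
      abel
    rw [e, index_step (isStep o hk h) (isForm_sum o f),
      ih hn _ _ _ (st_base o hk h) (isForm_base o hk f),
      ih hn _ _ _ (st_prim o hk h) (fun j hj => f j (List.mem_cons_of_mem _ hj))]
    have c1 : ∀ S : Finset ι, k ∉ S → ∀ y, cmp l (k :: t) S y = l k (cmp l t S y) := by
      intro S hS y
      rw [cmp, List.filter_cons_of_pos (by simpa using hS), List.map_cons, List.prod_cons,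
        Module.End.mul_apply]
      rfl
    have c2 : ∀ S S' : Finset ι, k ∈ S' → (∀ j ∈ t, j ∈ S ↔ j ∈ S') →
        cmp l (k :: t) S' = cmp l t S := by
      intro S S' hS hSS
      rw [cmp, cmp, List.filter_cons_of_neg (by simpa using hS)]
      congr 2
      apply List.filter_congr
      intro j hj
      simp [hSS j hj]
    constructor
    · rintro ⟨HB, HP⟩ S hS
      by_cases hkS : k ∈ S
      · have h1 := HP (S.erase k) (by
          intro j hj
          obtain ⟨hj1, hj2⟩ := Finset.mem_erase.1 hj
          exact (List.mem_cons.1 (hS j hj2)).resolve_left hj1)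
        have hSS : ∀ j ∈ t, j ∈ S.erase k ↔ j ∈ S := by
          intro j hj
          have hjk : j ≠ k := fun e => hk (e ▸ hj)
          simp [hjk]
        rw [Pc_prim (S' := S) hkS hSS, ← c2 _ _ hkS hSS] at h1
        have hc : (S.erase k).card + 1 = S.card := Finset.card_erase_add_one hkS
        rw [← hc]
        rw [List.length_cons]
        push_cast
        rw [show c - ((t.length : ℤ) + 1 - ((S.erase k).card + 1)) =
          c - (t.length - (S.erase k).card) by ring]
        exact h1
      · have h1 := HB S (by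
          intro j hj
          have hjk : j ≠ k := fun e => hkS (e ▸ hj)
          exact (List.mem_cons.1 (hS j hj)).resolve_left hjk)
        rw [Pc_base hkS] at h1
        rw [List.length_cons]
        push_cast
        rw [show c - ((t.length : ℤ) + 1 - S.card) = c - 1 - (t.length - S.card) by ring]
        simp only [c1 S hkS]
        exact h1
    · intro H
      refine ⟨fun S hS => ?_, fun S hS => ?_⟩
      · have hkS : k ∉ S := fun hkS => hk (hS k hkS)
        have h1 := H S fun j hj => List.mem_cons_of_mem _ (hS j hj)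
        rw [Pc_base hkS]
        rw [List.length_cons] at h1
        push_cast at h1
        rw [show c - ((t.length : ℤ) + 1 - S.card) = c - 1 - (t.length - S.card) by ring] at h1
        simp only [c1 S hkS] at h1
        exact h1
      · have hkS : k ∉ S := fun hkS => hk (hS k hkS)
        have h1 := H (insert k S) (by
          intro j hj
          rcases Finset.mem_insert.1 hj with rfl | hj
          · exact List.mem_cons_self
          · exact List.mem_cons_of_mem _ (hS j hj))
        have hSS : ∀ j ∈ t, j ∈ S ↔ j ∈ insert k S := by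
          intro j hj
          have hjk : j ≠ k := fun e => hk (e ▸ hj)
          simp [hjk]
        rw [Pc_prim (S' := insert k S) (Finset.mem_insert_self _ _) hSS]
        rw [c2 _ _ (Finset.mem_insert_self _ _) hSS, List.length_cons,
          Finset.card_insert_of_notMem hkS] at h1
        push_cast at h1
        rw [show c - ((t.length : ℤ) + 1 - (S.card + 1)) = c - (t.length - S.card) by ring] at h1
        exact h1

end

end Pool.Agent.Q187.HL
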