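import Pool.Agent.Q187.HL.Stmt
import Pool.Agent.Q187.HL.Multi

/-! Products with curves: the theorem. -/

namespace Pool.Agent.Q187.HL

universe u

section
variable {A : Type u} [AddCommGroup A] [Module ℚ A]

theorem hard_zero {V : ℤ → Submodule ℚ A} {W : Submodule ℚ A} {c : ℤ} :
    Hard V W 0 c ↔ ∀ p : ℤ, 2 * p ≠ c → ∀ x ∈ W, x ∈ V p → x = 0 := by
  constructor
  · intro H p hp x hx hxV
    rcases lt_or_gt_of_ne hp with h | h
    · obtain ⟨m, hm⟩ : ∃ m : ℕ, 2 * p + (m + 1 : ℕ) = c :=
        ⟨(c - 2 * p - 1).toNat, by push_cast; omega⟩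
      apply (H p (m + 1) hm).1 x hx hxV
      rw [pow_succ]
      simp
    · obtain ⟨m, hm⟩ : ∃ m : ℕ, 2 * p - (m + 1 : ℕ) = c :=
        ⟨(2 * p - c - 1).toNat, by push_cast; omega⟩
      obtain ⟨y, -, -, hy⟩ := (H (p - (m + 1 : ℕ)) (m + 1) (by omega)).2 x hx (by
        rw [sub_add_cancel]; exact hxV)
      rw [← hy, pow_succ]
      simp
  · intro H i m him
    rcases Nat.eq_zero_or_pos m with rfl | hm
    · refine ⟨fun x _ _ h0 => by simpa using h0, fun y hy hyV => ⟨y, hy, ?_, by simp⟩⟩
      simpa using hyV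
    · refine ⟨fun x hx hxV _ => H i (by omega) x hx hxV, fun y hy hyV => ?_⟩
      have : y = 0 := H (i + m) (by omega) y hy hyV
      exact ⟨0, zero_mem _, zero_mem _, by rw [this, map_zero]⟩

theorem index_zero {V : ℤ → Submodule ℚ A} {W : Submodule ℚ A} {c : ℤ} {φ : A → A → ℝ}
    (h0 : ∀ x, φ x 0 = 0) :
    Index V W 0 c φ ↔ (∀ p : ℤ, 2 * p < c → ∀ x ∈ W, x ∈ V p → x = 0) ∧
      (∀ p : ℤ, 2 * p = c → ∀ x ∈ W, x ∈ V p → x ≠ 0 → 0 < (-1 : ℝ) ^ p * φ x x) := by
  constructor
  · intro H
    refine ⟨fun p hp x hx hxV => ?_, fun p hp x hx hxV hx0 => ?_⟩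
    · by_contra hx0
      obtain ⟨m, hm⟩ : ∃ m : ℕ, 2 * p + (m + 1 : ℕ) = c :=
        ⟨(c - 2 * p - 1).toNat, by push_cast; omega⟩
      have := H p (m + 1) hm x hx hxV hx0 (by rw [pow_succ]; simp)
      rw [pow_succ] at this
      simp [h0] at this
    · have := H p 0 (by simpa using hp) x hx hxV hx0 (by simp)
      simpa using this
  · rintro ⟨H1, H2⟩ i m him x hx hxV hx0 _
    rcases Nat.eq_zero_or_pos m with rfl | hm
    · have := H2 i (by simpa using him) x hx hxV hx0
      simpa using this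
    · exact absurd (H1 i (by omega) x hx hxV) hx0

theorem index_smul {V : ℤ → Submodule ℚ A} {W : Submodule ℚ A} {L : Module.End ℚ A} {c : ℤ}
    {φ ψ : A → A → ℝ} {t : ℝ} (ht : 0 < t) (h : ∀ x y, φ x y = t * ψ x y) :
    Index V W L c φ ↔ Index V W L c ψ := by
  have key : ∀ (i : ℤ) x y, 0 < (-1 : ℝ) ^ i * φ x y ↔ 0 < (-1 : ℝ) ^ i * ψ x y := by
    intro i x y
    rw [h, show (-1 : ℝ) ^ i * (t * ψ x y) = t * ((-1 : ℝ) ^ i * ψ x y) by ring]
    exact mul_pos_iff_of_pos_left ht
  unfold Index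
  simp only [key]

theorem cmp_smul {ι : Type} [DecidableEq ι] (P : ι → Module.End ℚ A) (a : ι → ℚ)
    (ha : ∀ k, 0 < a k) (s : List ι) (S : Finset ι) :
    ∃ t : ℚ, 0 < t ∧ cmp (fun k => a k • P k) s S = t • cmp P s S := by
  induction s with
  | nil => exact ⟨1, one_pos, by simp [cmp]⟩
  | cons k s ih =>
    obtain ⟨t, ht, he⟩ := ih
    by_cases hk : k ∈ S
    · refine ⟨t, ht, ?_⟩
      simp only [cmp] at he ⊢
      rw [List.filter_cons_of_neg (by simpa using hk)]
      exact he
    · refine ⟨a k * t, mul_pos (ha k) ht, ?_⟩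
      simp only [cmp] at he ⊢
      rw [List.filter_cons_of_pos (by simpa using hk), List.map_cons, List.map_cons,
        List.prod_cons, List.prod_cons, he, smul_mul_smul_comm]

end

variable (X : CurveProduct.{u})

theorem ops (hX : IsCycles X) (hc : Commute X) (a : Fin X.n → ℚ) (ha : ∀ k, a k ≠ 0) :
    Ops X.V X.LY (fun k => a k • X.P k) (fun k => (a k)⁻¹ • X.T k) where
  LV := hX.LYV
  lV k i x hx := Submodule.smul_mem _ _ (hX.PV k i x hx)
  rV k i x hx := Submodule.smul_mem _ _ (hX.TV k i x hx)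
  ll k x := by simp [hX.PP]
  rr k x := by simp [hX.TT]
  lrl k x := by simp [hX.PTP, ha k]
  rlr k x := by simp [hX.TPT, ha k]
  Ll k x := by simp [hc.LYP]
  Lr k x := by simp [hc.LYT]
  cll j k hjk x := by simp [hc.PP j k hjk, smul_comm (a j) (a k)]
  crr j k hjk x := by simp [hc.TT j k hjk, smul_comm (a j)⁻¹ (a k)⁻¹]
  clr j k hjk x := by simp [hc.PT j k hjk, smul_comm (a j) (a k)⁻¹]

theorem piece_eq (a : Fin X.n → ℚ) (ha : ∀ k, a k ≠ 0) (S : Finset (Fin X.n)) :
    Pc ⊤ (fun k => a k • X.P k) (fun k => (a k)⁻¹ • X.T k) (List.finRange X.n) S = piece X S := by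
  ext x
  rw [mem_Pc]
  change _ ↔ ∀ k, _
  constructor
  · rintro ⟨-, h⟩ k
    have := h k (List.mem_finRange k)
    simpa [ha k] using this
  · intro h
    refine ⟨trivial, fun k _ => ?_⟩
    simpa [ha k] using h k

theorem st_top (a : Fin X.n → ℚ) : St ⊤ X.LY (fun k => a k • X.P k) (fun k => (a k)⁻¹ • X.T k)
    (List.finRange X.n) :=
  ⟨fun _ _ => trivial, fun _ _ _ _ => trivial, fun _ _ _ _ => trivial⟩

theorem isForm (hh : IsHeight X) (a : Fin X.n → ℚ) (k : Fin X.n) :
    IsForm X.height X.LY (a k • X.P k) ((a k)⁻¹ • X.T k) := by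
  have sr : ∀ (t : ℚ) x y, X.height x (t • y) = t * X.height x y := by
    intro t x y
    rw [hh.symm, hh.smul, hh.symm y]
  refine ⟨hh.add, hh.smul, hh.symm, hh.LYadj, fun x y => ?_, fun x y => ?_⟩
  · rw [LinearMap.smul_apply, LinearMap.smul_apply, hh.smul, sr, hh.Padj]
  · rw [LinearMap.smul_apply, LinearMap.smul_apply, hh.smul, sr, hh.Tadj]

theorem lefschetz_eq (a : Fin X.n → ℚ) :
    lefschetz X a = X.LY + ((List.finRange X.n).map (fun k => a k • X.P k)).sum := by
  rw [lefschetz, Fin.sum_univ_def]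

theorem card_eq (S : Finset (Fin X.n)) :
    (X.dimY + X.n + 1 : ℤ) - ((List.finRange X.n).length - S.card) = X.dimY + S.card + 1 := by
  rw [List.length_finRange]
  ring

theorem main_hard (hX : IsCycles X) (hc : Commute X) (a : Fin X.n → ℚ) (ha : ∀ k, 0 < a k) :
    Q1 X a ↔ ∀ S, Hard X.V (piece X S) X.LY (X.dimY + S.card + 1) := by
  have ha' : ∀ k, a k ≠ 0 := fun k => (ha k).ne'
  rw [Q1, lefschetz_eq, hard_list (ops X hX hc a ha') _ (List.nodup_finRange _) _ _ (st_top X a)]
  constructor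
  · intro H S
    have := H S fun k _ => List.mem_finRange k
    rwa [piece_eq X a ha', card_eq] at this
  · intro H S _
    rw [piece_eq X a ha', card_eq]
    exact H S

theorem main_index (hX : IsCycles X) (hc : Commute X) (hh : IsHeight X) (a : Fin X.n → ℚ)
    (ha : ∀ k, 0 < a k) :
    Q2 X a ↔ ∀ S, Index X.V (piece X S) X.LY (X.dimY + S.card + 1) (heightOn X S) := by
  have ha' : ∀ k, a k ≠ 0 := fun k => (ha k).ne'
  have sr : ∀ (t : ℚ) x y, X.height x (t • y) = t * X.height x y := by
    intro t x y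
    rw [hh.symm, hh.smul, hh.symm y]
  rw [Q2, lefschetz_eq, index_list (ops X hX hc a ha') _ (List.nodup_finRange _) _ _ _
    (st_top X a) (fun k _ => isForm X hh a k)]
  have key : ∀ S, Index X.V (piece X S) X.LY (X.dimY + S.card + 1)
      (fun x y => X.height x (cmp (fun k => a k • X.P k) (List.finRange X.n) S y)) ↔
      Index X.V (piece X S) X.LY (X.dimY + S.card + 1) (heightOn X S) := by
    intro S
    obtain ⟨t, ht, he⟩ := cmp_smul X.P a ha (List.finRange X.n) S
    refine index_smul (t := (t : ℝ)) (by exact_mod_cast ht) fun x y => ?_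
    rw [he, LinearMap.smul_apply, sr]
    rfl
  constructor
  · intro H S
    have := H S fun k _ => List.mem_finRange k
    rw [piece_eq X a ha', card_eq, key] at this
    exact this
  · intro H S _
    rw [piece_eq X a ha', card_eq, key]
    exact H S

theorem main_point (hX : IsCycles X) (hc : Commute X) (hh : IsHeight X) (a : Fin X.n → ℚ)
    (ha : ∀ k, 0 < a k) (hp : OverPoint X) (hcc : CurveCase X) :
    (Q1 X a ↔ Vanishing X) ∧ (Q1 X a ∧ Q2 X a ↔ Vanishing X ∧ Definite X) := by
  have h0 : ∀ S x, heightOn X S x 0 = 0 := by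
    intro S x
    rw [heightOn, map_zero, hh.symm]
    have := hh.smul 0 0 x
    rwa [zero_smul, Rat.cast_zero, zero_mul] at this
  have A1 : Q1 X a ↔ Vanishing X := by
    rw [main_hard X hX hc a ha, hp.1, hp.2]
    simp only [hard_zero]
    constructor
    · intro H S _ p hp x hx hxV
      exact H S p (by push_cast; omega) x hx hxV
    · intro H S p hp x hx hxV
      rcases Nat.lt_or_ge S.card 2 with h | h
      · rcases Nat.lt_or_ge S.card 1 with h | h
        · have : S = ∅ := by
            rw [← Finset.card_eq_zero]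
            omega
          subst this
          exact hcc.point p x hx hxV
        · have h1 : S.card = 1 := by omega
          refine hcc.curve S h1 p ?_ x hx hxV
          rintro rfl
          apply hp
          rw [h1]
          norm_num
      · exact H S h p (by push_cast at hp; omega) x hx hxV
  refine ⟨A1, ?_⟩
  rw [A1]
  refine and_congr_right fun hV => ?_
  rw [main_index X hX hc hh a ha, hp.1, hp.2]
  simp only [index_zero (h0 _)]
  constructor
  · intro H S _ p hp x hx hxV hx0
    exact (H S).2 p (by push_cast; omega) x hx hxV hx0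
  · intro H S
    have hQ : ∀ p : ℤ, 2 * p ≠ S.card + 1 → ∀ x ∈ piece X S, x ∈ X.V p → x = 0 := by
      have := (main_hard X hX hc a ha).1 (A1.2 hV) S
      rw [hp.1, hp.2, hard_zero] at this
      intro p hp
      exact this p (by push_cast; omega)
    refine ⟨fun p hp x hx hxV => hQ p (by push_cast at hp; omega) x hx hxV,
      fun p hp x hx hxV hx0 => ?_⟩
    rcases Nat.lt_or_ge S.card 3 with h | h
    · have h1 : S.card = 1 := by
        push_cast at hp
        omega
      have hp1 : p = 1 := by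
        rw [h1] at hp
        push_cast at hp
        omega
      subst hp1
      have := hcc.definite S h1 x hx hxV hx0
      rw [zpow_one]
      linarith
    · exact H S h p (by push_cast at hp; omega) x hx hxV hx0

end Pool.Agent.Q187.HL
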