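import Mathlib

/-! Hard Lefschetz and Hodge index: adding one curve. -/

namespace Pool.Agent.Q187.HL

universe u

variable {A : Type u} [AddCommGroup A] [Module ℚ A]

/-- hard Lefschetz on `W` with respect to the grading `V`, with centre `c / 2` -/
def Hard (V : ℤ → Submodule ℚ A) (W : Submodule ℚ A) (L : Module.End ℚ A) (c : ℤ) : Prop :=
  ∀ (i : ℤ) (m : ℕ), 2 * i + m = c →
    (∀ x ∈ W, x ∈ V i → (L ^ m) x = 0 → x = 0) ∧
    (∀ y ∈ W, y ∈ V (i + m) → ∃ x ∈ W, x ∈ V i ∧ (L ^ m) x = y)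

/-- the Hodge index property on `W` -/
def Index (V : ℤ → Submodule ℚ A) (W : Submodule ℚ A) (L : Module.End ℚ A) (c : ℤ)
    (φ : A → A → ℝ) : Prop :=
  ∀ (i : ℤ) (m : ℕ), 2 * i + m = c → ∀ x ∈ W, x ∈ V i → x ≠ 0 → (L ^ (m + 1)) x = 0 →
    0 < (-1 : ℝ) ^ i * φ x ((L ^ m) x)

/-- the data of a step -/
structure IsStep (V : ℤ → Submodule ℚ A) (W : Submodule ℚ A) (L l r : Module.End ℚ A) : Prop where
  LW : ∀ x ∈ W, L x ∈ W
  lW : ∀ x ∈ W, l x ∈ W
  rW : ∀ x ∈ W, r x ∈ W
  LV : ∀ i, ∀ x ∈ V i, L x ∈ V (i + 1)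
  lV : ∀ i, ∀ x ∈ V i, l x ∈ V (i + 1)
  rV : ∀ i, ∀ x ∈ V i, r x ∈ V (i - 1)
  ll : ∀ x, l (l x) = 0
  rr : ∀ x, r (r x) = 0
  lrl : ∀ x, l (r (l x)) = l x
  rlr : ∀ x, r (l (r x)) = r x
  Ll : ∀ x, L (l x) = l (L x)
  Lr : ∀ x, L (r x) = r (L x)

/-- the part pulled back from the product of the other factors -/
def base (W : Submodule ℚ A) (l r : Module.End ℚ A) : Submodule ℚ A where
  carrier := {x | x ∈ W ∧ r (l x) = x}
  zero_mem' := ⟨zero_mem _, by simp⟩
  add_mem' := by
    rintro x y ⟨hx, hx'⟩ ⟨hy, hy'⟩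
    exact ⟨add_mem hx hy, by rw [map_add, map_add, hx', hy']⟩
  smul_mem' := by
    rintro t x ⟨hx, hx'⟩
    exact ⟨Submodule.smul_mem _ _ hx, by rw [map_smul, map_smul, hx']⟩

/-- the part of the `h^1` of the factor -/
def prim (W : Submodule ℚ A) (l r : Module.End ℚ A) : Submodule ℚ A where
  carrier := {x | x ∈ W ∧ l x = 0 ∧ r x = 0}
  zero_mem' := ⟨zero_mem _, by simp, by simp⟩
  add_mem' := by
    rintro x y ⟨hx, h1, h2⟩ ⟨hy, h3, h4⟩
    exact ⟨add_mem hx hy, by rw [map_add, h1, h3, add_zero], by rw [map_add, h2, h4, add_zero]⟩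
  smul_mem' := by
    rintro t x ⟨hx, h1, h2⟩
    exact ⟨Submodule.smul_mem _ _ hx, by rw [map_smul, h1, smul_zero],
      by rw [map_smul, h2, smul_zero]⟩

theorem mem_base {W : Submodule ℚ A} {l r : Module.End ℚ A} {x : A} :
    x ∈ base W l r ↔ x ∈ W ∧ r (l x) = x := Iff.rfl

theorem mem_prim {W : Submodule ℚ A} {l r : Module.End ℚ A} {x : A} :
    x ∈ prim W l r ↔ x ∈ W ∧ l x = 0 ∧ r x = 0 := Iff.rfl

variable {V : ℤ → Submodule ℚ A} {W : Submodule ℚ A} {L l r : Module.End ℚ A}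

section
variable (h : IsStep V W L l r)
include h

theorem pow_l (m : ℕ) (x : A) : (L ^ m) (l x) = l ((L ^ m) x) := by
  induction m with
  | zero => simp
  | succ m ih => rw [pow_succ', Module.End.mul_apply, Module.End.mul_apply, ih, h.Ll]

theorem pow_r (m : ℕ) (x : A) : (L ^ m) (r x) = r ((L ^ m) x) := by
  induction m with
  | zero => simp
  | succ m ih => rw [pow_succ', Module.End.mul_apply, Module.End.mul_apply, ih, h.Lr]

theorem pow_W (m : ℕ) {x : A} (hx : x ∈ W) : (L ^ m) x ∈ W := by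
  induction m with
  | zero => simpa using hx
  | succ m ih => rw [pow_succ', Module.End.mul_apply]; exact h.LW _ ih

theorem pow_V (m : ℕ) {i : ℤ} {x : A} (hx : x ∈ V i) : (L ^ m) x ∈ V (i + m) := by
  induction m with
  | zero => simpa using hx
  | succ m ih =>
    rw [pow_succ', Module.End.mul_apply]
    have := h.LV _ _ ih
    rw [show i + ((m + 1 : ℕ) : ℤ) = i + m + 1 by push_cast; ring]
    exact this

omit h in
theorem L_pow (m : ℕ) (x : A) : L ((L ^ m) x) = (L ^ (m + 1)) x := by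
  rw [pow_succ', Module.End.mul_apply]

/-- `(L + l)^(m+1) = L^(m+1) + (m+1) l L^m` -/
theorem pow_add_succ (m : ℕ) (x : A) :
    ((L + l) ^ (m + 1)) x = (L ^ (m + 1)) x + ((m : ℚ) + 1) • l ((L ^ m) x) := by
  induction m with
  | zero => simp
  | succ m ih =>
    rw [pow_succ' (L + l), Module.End.mul_apply, ih]
    simp only [LinearMap.add_apply, map_add, map_smul]
    rw [h.ll, h.Ll, L_pow, L_pow, add_zero]
    push_cast
    module

theorem pow_prim (m : ℕ) {x : A} (hx : l x = 0) : ((L + l) ^ m) x = (L ^ m) x := by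
  cases m with
  | zero => simp
  | succ m => rw [pow_add_succ h, ← pow_l h, hx, map_zero, smul_zero, add_zero]

theorem base_stable {x : A} (hx : x ∈ base W l r) : L x ∈ base W l r :=
  ⟨h.LW _ hx.1, by rw [← h.Ll, ← h.Lr, hx.2]⟩

theorem base_rl {x : A} (hx : x ∈ W) : r (l x) ∈ base W l r :=
  ⟨h.rW _ (h.lW _ hx), by rw [h.lrl]⟩

theorem base_r {x : A} (hx : x ∈ W) : r x ∈ base W l r :=
  ⟨h.rW _ hx, h.rlr x⟩

theorem base_r_zero {x : A} (hx : x ∈ base W l r) : r x = 0 := by
  rw [← hx.2, h.rr]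

theorem prim_proj {x : A} (hx : x ∈ W) : x - r (l x) - l (r x) ∈ prim W l r := by
  refine ⟨sub_mem (sub_mem hx (h.rW _ (h.lW _ hx))) (h.lW _ (h.rW _ hx)), ?_, ?_⟩
  · rw [map_sub, map_sub, h.lrl, h.ll, sub_self, sub_zero]
  · rw [map_sub, map_sub, h.rr, h.rlr, sub_zero, sub_self]

theorem rl_V {i : ℤ} {x : A} (hx : x ∈ V i) : r (l x) ∈ V i := by
  have := h.rV _ _ (h.lV _ _ hx)
  rwa [add_sub_cancel_right] at this

theorem lr_V {i : ℤ} {x : A} (hx : x ∈ V i) : l (r x) ∈ V i := by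
  have := h.lV _ _ (h.rV _ _ hx)
  rwa [sub_add_cancel] at this

theorem prim_proj_V {i : ℤ} {x : A} (hx : x ∈ V i) : x - r (l x) - l (r x) ∈ V i :=
  sub_mem (sub_mem hx (rl_V h hx)) (lr_V h hx)

/-- the powers of `L + l` commute with the projection to the `h^1`-part -/
theorem pow_prim_proj (m : ℕ) (x : A) :
    ((L + l) ^ m) (x - r (l x) - l (r x)) =
      ((L + l) ^ m) x - r (l (((L + l) ^ m) x)) - l (r (((L + l) ^ m) x)) := by
  induction m with
  | zero => simp
  | succ m ih =>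
    rw [pow_succ', Module.End.mul_apply, ih, Module.End.mul_apply]
    set z := ((L + l) ^ m) x
    have a1 : L (r (l z)) = r (l (L z)) := by rw [h.Lr, h.Ll]
    have a3 : L (l (r z)) = l (r (L z)) := by rw [h.Ll, h.Lr]
    have a5 : r (l (l z)) = 0 := by rw [h.ll, map_zero]
    simp only [LinearMap.add_apply, map_sub, map_add]
    rw [a1, a3, a5, h.lrl, h.ll]
    abel

end

/-- **Hard Lefschetz step.** -/
theorem hard_step (h : IsStep V W L l r) (c : ℤ) :
    Hard V W (L + l) c ↔ Hard V (base W l r) L (c - 1) ∧ Hard V (prim W l r) L c := by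
  constructor
  · intro H
    refine ⟨?_, ?_⟩
    · intro i m him
      obtain ⟨H1, H2⟩ := H i (m + 1) (by push_cast; omega)
      refine ⟨?_, ?_⟩
      · intro b hb hbV h0
        apply H1 b hb.1 hbV
        rw [pow_add_succ h, h0, map_zero, smul_zero, add_zero, pow_succ', Module.End.mul_apply, h0,
          map_zero]
      · intro y hy hyV
        have h1 : l y ∈ V (i + ((m + 1 : ℕ) : ℤ)) := by
          have := h.lV _ _ hyV
          rw [show i + ((m + 1 : ℕ) : ℤ) = i + m + 1 by push_cast; ring]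
          exact this
        obtain ⟨x, hx, hxV, hxe⟩ := H2 (l y) (h.lW _ hy.1) h1
        rw [pow_add_succ h] at hxe
        have h2 := congrArg r hxe
        rw [hy.2, map_add, map_smul, ← pow_r h, ← pow_l h, ← pow_r h, pow_succ,
          Module.End.mul_apply, ← map_smul, ← map_add] at h2
        refine ⟨L (r x) + ((m : ℚ) + 1) • r (l x), add_mem (base_stable h (base_r h hx))
          (Submodule.smul_mem _ _ (base_rl h hx)), add_mem ?_ (Submodule.smul_mem _ _ (rl_V h hxV)), h2⟩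
        have := h.LV _ _ (h.rV _ _ hxV)
        rwa [sub_add_cancel] at this
    · intro i m him
      obtain ⟨H1, H2⟩ := H i m him
      refine ⟨?_, ?_⟩
      · intro x hx hxV h0
        apply H1 x hx.1 hxV
        rw [pow_prim h m hx.2.1, h0]
      · intro y hy hyV
        obtain ⟨x, hx, hxV, hxe⟩ := H2 y hy.1 hyV
        refine ⟨x - r (l x) - l (r x), prim_proj h hx, prim_proj_V h hxV, ?_⟩
        rw [← pow_prim h m (prim_proj h hx).2.1, pow_prim_proj h, hxe, hy.2.1, hy.2.2, map_zero,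
          map_zero, sub_zero, sub_zero]
  · rintro ⟨HB, HP⟩ i m him
    obtain ⟨P1, P2⟩ := HP i m him
    rcases Nat.eq_zero_or_pos m with rfl | hm
    · refine ⟨fun x _ _ h0 => by simpa using h0, fun y hy hyV => ⟨y, hy, ?_, by simp⟩⟩
      simpa using hyV
    obtain ⟨k, rfl⟩ : ∃ k, m = k + 1 := ⟨m - 1, by omega⟩
    -- centre `c - 1`: degrees `i` (length `k`) and `i - 1` (length `k + 2`)
    obtain ⟨A1, A2⟩ := HB i k (by push_cast at him; omega)
    obtain ⟨B1, B2⟩ := HB (i - 1) (k + 2) (by push_cast at him ⊢; omega)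
    have hk : ((k : ℚ) + 1) ≠ 0 := by positivity
    refine ⟨?_, ?_⟩
    · intro x hx hxV h0
      have h1 : x - r (l x) - l (r x) = 0 := by
        apply P1 _ (prim_proj h hx) (prim_proj_V h hxV)
        rw [← pow_prim h _ (prim_proj h hx).2.1, pow_prim_proj h, h0]
        simp
      have e0 : (L ^ (k + 1)) (r (l x)) = 0 := by
        have : r (l (((L + l) ^ (k + 1)) x)) = r (l 0) := by rw [h0]
        rw [pow_add_succ h, map_add, map_smul, h.ll, smul_zero, add_zero, ← pow_l h, ← pow_r h,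
          map_zero, map_zero] at this
        exact this
      have e1 : (L ^ (k + 1)) (r x) + ((k : ℚ) + 1) • (L ^ k) (r (l x)) = 0 := by
        have := congrArg r h0
        rw [pow_add_succ h, map_add, map_smul, ← pow_l h, ← pow_r h, ← pow_r h, map_zero] at this
        exact this
      have e2 : r x = 0 := by
        apply B1 _ (base_r h hx) (h.rV _ _ hxV)
        have := congrArg L e1
        rw [map_add, map_smul, L_pow, L_pow, e0, smul_zero, add_zero, map_zero] at this
        exact this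
      have e3 : r (l x) = 0 := by
        apply A1 _ (base_rl h hx) (rl_V h hxV)
        rw [e2, map_zero, zero_add] at e1
        exact (smul_eq_zero.1 e1).resolve_left hk
      rw [e2, e3] at h1
      simpa using h1
    · intro y hy hyV
      obtain ⟨w, hw, hwV, hwe⟩ := P2 _ (prim_proj h hy) (prim_proj_V h hyV)
      have hryV : r y ∈ V (i + k) := by
        have := h.rV _ _ hyV
        rw [show i + ((k + 1 : ℕ) : ℤ) - 1 = i + k by push_cast; ring] at this
        exact this
      have hz : L (r y) - ((k : ℚ) + 1) • r (l y) ∈ V (i - 1 + ((k + 2 : ℕ) : ℤ)) := by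
        rw [show i - 1 + ((k + 2 : ℕ) : ℤ) = i + ((k + 1 : ℕ) : ℤ) by push_cast; ring]
        refine sub_mem ?_ (Submodule.smul_mem _ _ (rl_V h hyV))
        have := h.LV _ _ hryV
        rw [show i + (k : ℤ) + 1 = i + ((k + 1 : ℕ) : ℤ) by push_cast; ring] at this
        exact this
      obtain ⟨b1, hb1, hb1V, hb1e⟩ := B2 _ (sub_mem (base_stable h (base_r h hy))
        (Submodule.smul_mem _ _ (base_rl h hy))) hz
      have hu : r y - (L ^ (k + 1)) b1 ∈ V (i + k) := by
        refine sub_mem hryV ?_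
        have := pow_V h (k + 1) hb1V
        rw [show i - 1 + ((k + 1 : ℕ) : ℤ) = i + k by push_cast; ring] at this
        exact this
      have hbs : ∀ (m : ℕ) (x : A), x ∈ base W l r → (L ^ m) x ∈ base W l r := by
        intro m x hx
        refine ⟨pow_W h m hx.1, ?_⟩
        rw [← pow_l h, ← pow_r h, hx.2]
      obtain ⟨b0, hb0, hb0V, hb0e⟩ := A2 (((k : ℚ) + 1)⁻¹ • (r y - (L ^ (k + 1)) b1))
        (Submodule.smul_mem _ _ (sub_mem (base_r h hy) (hbs _ _ hb1))) (Submodule.smul_mem _ _ hu)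
      have f1 : ((k : ℚ) + 1) • (L ^ k) b0 = r y - (L ^ (k + 1)) b1 := by
        rw [hb0e, smul_smul, mul_inv_cancel₀ hk, one_smul]
      have f2 : (L ^ (k + 1)) b0 = r (l y) := by
        have h3 : ((k : ℚ) + 1) • (L ^ (k + 1)) b0 = ((k : ℚ) + 1) • r (l y) := by
          rw [← L_pow, ← map_smul, f1, map_sub, L_pow, hb1e]
          abel
        have h4 := congrArg (fun z => (((k : ℚ) + 1)⁻¹) • z) h3
        simp only [smul_smul, inv_mul_cancel₀ hk, one_smul] at h4
        exact h4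
      refine ⟨w + (b0 + l b1), add_mem hw.1 (add_mem hb0.1 (h.lW _ hb1.1)),
        add_mem hwV (add_mem hb0V ?_), ?_⟩
      · have := h.lV _ _ hb1V
        rwa [sub_add_cancel] at this
      · rw [map_add, pow_prim h _ hw.2.1, hwe, pow_add_succ h, map_add, map_add, pow_l h, map_add,
          pow_l h, h.ll, add_zero, f2]
        have h5 : l ((L ^ (k + 1)) b1) + ((k : ℚ) + 1) • l ((L ^ k) b0) = l (r y) := by
          rw [← map_smul, f1, ← map_add]
          congr 1
          abel
        rw [show r (l y) + l ((L ^ (k + 1)) b1) + ((k : ℚ) + 1) • l ((L ^ k) b0)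
          = r (l y) + (l ((L ^ (k + 1)) b1) + ((k : ℚ) + 1) • l ((L ^ k) b0)) by abel, h5]
        abel

end Pool.Agent.Q187.HL
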