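import Pool.Agent.Q187.HL.Step

/-! Products with curves: definitions. -/

namespace Pool.Agent.Q187.HL

universe u

/-- Homologically trivial cycles on `X = Y × C_1 × ... × C_n` over a number field, with rational
points `P_k` of the curves `C_k` and an ample class `L_Y` on `Y`. -/
structure CurveProduct where
  /-- the sum of all `Ch^p(X)^0` (rational coefficients) -/
  A : Type u
  [grp : AddCommGroup A]
  [mod : Module ℚ A]
  /-- `V p` is `Ch^p(X)^0` -/
  V : ℤ → Submodule ℚ A
  /-- the height pairing (extended by zero) -/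
  height : A → A → ℝ
  dimY : ℕ
  n : ℕ
  /-- the product with the pull-back of `L_Y` -/
  LY : Module.End ℚ A
  /-- the product with the pull-back of `P_k` -/
  P : Fin n → Module.End ℚ A
  /-- `x ↦ pr_k^* pr_{k*} x`, where `pr_k` forgets the factor `C_k` -/
  T : Fin n → Module.End ℚ A

attribute [instance] CurveProduct.grp CurveProduct.mod

variable (X : CurveProduct.{u})

/-- degrees, and relations for one index -/
structure IsCycles : Prop where
  LYV : ∀ i, ∀ x ∈ X.V i, X.LY x ∈ X.V (i + 1)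
  PV : ∀ k i, ∀ x ∈ X.V i, X.P k x ∈ X.V (i + 1)
  TV : ∀ k i, ∀ x ∈ X.V i, X.T k x ∈ X.V (i - 1)
  PP : ∀ k x, X.P k (X.P k x) = 0
  TT : ∀ k x, X.T k (X.T k x) = 0
  PTP : ∀ k x, X.P k (X.T k (X.P k x)) = X.P k x
  TPT : ∀ k x, X.T k (X.P k (X.T k x)) = X.T k x

/-- commutation relations -/
structure Commute : Prop where
  LYP : ∀ k x, X.LY (X.P k x) = X.P k (X.LY x)
  LYT : ∀ k x, X.LY (X.T k x) = X.T k (X.LY x)
  PP : ∀ j k, j ≠ k → ∀ x, X.P j (X.P k x) = X.P k (X.P j x)
  TT : ∀ j k, j ≠ k → ∀ x, X.T j (X.T k x) = X.T k (X.T j x)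
  PT : ∀ j k, j ≠ k → ∀ x, X.P j (X.T k x) = X.T k (X.P j x)

/-- the height pairing is symmetric and bilinear, and the operators are self-adjoint -/
structure IsHeight : Prop where
  add : ∀ x y z, X.height (x + y) z = X.height x z + X.height y z
  smul : ∀ (t : ℚ) x y, X.height (t • x) y = t * X.height x y
  symm : ∀ x y, X.height x y = X.height y x
  LYadj : ∀ x y, X.height (X.LY x) y = X.height x (X.LY y)
  Padj : ∀ k x y, X.height (X.P k x) y = X.height x (X.P k y)
  Tadj : ∀ k x y, X.height (X.T k x) y = X.height x (X.T k y)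

/-- the Lefschetz operator of `L_Y + a_1 P_1 + ... + a_n P_n` -/
def lefschetz (a : Fin X.n → ℚ) : Module.End ℚ X.A := X.LY + ∑ k, a k • X.P k

/-- Q1 for the polarization `a` -/
def Q1 (a : Fin X.n → ℚ) : Prop := Hard X.V ⊤ (lefschetz X a) (X.dimY + X.n + 1)

/-- Q2 for the polarization `a` -/
def Q2 (a : Fin X.n → ℚ) : Prop := Index X.V ⊤ (lefschetz X a) (X.dimY + X.n + 1) X.height

/-- the cycles of type `S`: those of the motive `h(Y) ⊗ ⨂_{k ∈ S} h^1(C_k)` -/
def piece (S : Finset (Fin X.n)) : Submodule ℚ X.A where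
  carrier := {x | ∀ k, (k ∈ S → X.P k x = 0 ∧ X.T k x = 0) ∧ (k ∉ S → X.T k (X.P k x) = x)}
  zero_mem' := fun k => ⟨fun _ => by simp, fun _ => by simp⟩
  add_mem' := by
    intro x y hx hy k
    refine ⟨fun h => ?_, fun h => ?_⟩
    · rw [map_add, map_add, ((hx k).1 h).1, ((hx k).1 h).2, ((hy k).1 h).1, ((hy k).1 h).2]
      simp
    · rw [map_add, map_add, (hx k).2 h, (hy k).2 h]
  smul_mem' := by
    intro t x hx k
    refine ⟨fun h => ?_, fun h => ?_⟩
    · rw [map_smul, map_smul, ((hx k).1 h).1, ((hx k).1 h).2]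
      simp
    · rw [map_smul, map_smul, (hx k).2 h]

/-- the product with all `P_k`, `k ∉ S` -/
def section' (S : Finset (Fin X.n)) : Module.End ℚ X.A :=
  (((List.finRange X.n).filter (fun k => k ∉ S)).map X.P).prod

/-- the height pairing on the cycles of type `S` -/
def heightOn (S : Finset (Fin X.n)) (x y : X.A) : ℝ := X.height x (section' X S y)

/-- `Y` is a point -/
def OverPoint : Prop := X.dimY = 0 ∧ X.LY = 0

/-- points and curves (known, for `Y` a point): there are no homologically trivial cycles on a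
point, those of a curve are its divisors of degree `0`, with negative definite pairing. -/
structure CurveCase : Prop where
  point : ∀ p, ∀ x ∈ piece X ∅, x ∈ X.V p → x = 0
  curve : ∀ S : Finset (Fin X.n), S.card = 1 → ∀ p, p ≠ 1 → ∀ x ∈ piece X S, x ∈ X.V p → x = 0
  definite : ∀ S : Finset (Fin X.n), S.card = 1 → ∀ x ∈ piece X S, x ∈ X.V 1 → x ≠ 0 →
    heightOn X S x x < 0

/-- `Ch^p(⨂_{k ∈ S} h^1(C_k))^0 = 0` for `|S| ≥ 2` outside the middle `2p = |S| + 1` -/
def Vanishing : Prop :=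
  ∀ S : Finset (Fin X.n), 2 ≤ S.card → ∀ p : ℤ, 2 * p ≠ S.card + 1 →
    ∀ x ∈ piece X S, x ∈ X.V p → x = 0

/-- the height pairing is `(-1)^p`-definite on `Ch^p(⨂_{k ∈ S} h^1(C_k))^0`, `2p = |S| + 1`,
`|S| ≥ 3` -/
def Definite : Prop :=
  ∀ S : Finset (Fin X.n), 3 ≤ S.card → ∀ p : ℤ, 2 * p = S.card + 1 →
    ∀ x ∈ piece X S, x ∈ X.V p → x ≠ 0 → 0 < (-1 : ℝ) ^ p * heightOn X S x x

end Pool.Agent.Q187.HL
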